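import Pool.Agent.H.MP_09c931_an.E

namespace Pool.Agent.Results.MP_09c931_an.No

open Pool.Agent.H.MP_09c931_an

theorem result : ∃ (A : Type) (_ : NonUnitalRing A) (_ : Module ℂ A) (_ : IsScalarTower ℂ A A)
    (_ : SMulCommClass ℂ A A) (_ : UniformSpace A),
    ArensMichael A ∧ ¬ TopologicalSpace.MetrizableSpace A ∧ HasBRAI A ∧ ¬ AllH0Hausdorff A :=
  ⟨AA, inferInstance, inferInstance, inferInstance, inferInstance, inferInstance,
    AA_am, AA_nm, AA_brai, AA_not⟩

end Pool.Agent.Results.MP_09c931_an.No
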